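import Pool.Agent.X35.OR.Patt

/-!
# The splitting of `s` consecutive terms of a sequence of primes in `r` quadratic fields `ℚ(√f_i(n))`, for ALL polynomials `f_i` and ALL
integers `n` near `± α v_i`, outside a set of `α` of small dimension: all patterns have the same frequency, with square-root error
-/

set_option autoImplicit false

namespace Pool.Agent.Results.MP_aaa0df_nt.PatternsOfManyFields

open Finset Polynomial

/-- For an odd prime `p`: `p` does not divide `m` and splits in `ℚ(√m)`, that is, `m` is a nonzero square modulo `p`. -/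
def Splits (p : ℕ) (m : ℤ) : Prop := (m : ZMod p) ≠ 0 ∧ IsSquare (m : ZMod p)

/-- For an odd prime `p`: `p` does not divide `m` and is inert in `ℚ(√m)`, that is, `m` is not a square modulo `p`. -/
def Inert (p : ℕ) (m : ℤ) : Prop := ¬ IsSquare (m : ZMod p)

open Classical in
/-- The number of the `k < K` such that for all `j < s` and all `i < r` the prime `q_(k + j)` splits in `ℚ(√f_i(n))` if
`w j i` is true, and is inert if `w j i` is false. -/
noncomputable def count {s r : ℕ} (q : ℕ → ℕ) (f : Fin r → ℤ[X]) (w : Fin s → Fin r → Bool) (n : ℤ) (K : ℕ) : ℕ :=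
  ((range K).filter (fun k => ∀ (j : Fin s) (i : Fin r),
    if w j i = true then Splits (q (k + j)) ((f i).eval n) else Inert (q (k + j)) ((f i).eval n))).card

/-- Let `s, B ≥ 1` and `δ > 0`. There are `κ > 0` and `C > 0` such that for all reals `v_i ≥ 1` with `∑ v_i ^ (-u) < ∞` for all `u > τ` (`τ ≥ 0`;
for example `v_i = 2 ^ i`, `τ = 0`), all `θ < 1` and every strictly increasing sequence `q_0, q_1, ...` of odd primes with `q_k ≤ (k + 2) ^ B`
(`B = 4` for the sequence of all odd primes) there is a set `E` of reals of Hausdorff dimension at most `(1 - κ + τ) / (1 - θ)`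
with the following property. For every real `α > 0` outside `E`, ALL `r`, ALL nonconstant polynomials `f_1, ..., f_r ∈ ℤ[T]` whose product has no
multiple root, and all patterns `w`, for all `i ≥ i₀`, ALL integers `n` with `||n| - α v_i| ≤ v_i ^ θ` and ALL `K` with
`(log |n|) ^ C ≤ K ≤ |n| ^ κ`, the number of the `k < K` such that the `s` consecutive terms `q_k, ..., q_(k + s - 1)` have the prescribed
splitting behaviour in the `r` fields `ℚ(√f_1(n)), ..., ℚ(√f_r(n))` differs from `K / 2 ^ (r s)` by at most `K ^ (1 / 2 + δ)`. -/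
theorem result (s B : ℕ) (hs : 1 ≤ s) (hB : 1 ≤ B) (δ : ℝ) (hδ : 0 < δ) :
    ∃ κ C : ℝ, 0 < κ ∧ 0 < C ∧ ∀ (v : ℕ → ℝ) (τ θ : ℝ), (∀ i, 1 ≤ v i) → 0 ≤ τ → θ < 1 →
      (∀ u : ℝ, τ < u → Summable (fun i => v i ^ (-u))) →
      ∀ q : ℕ → ℕ, StrictMono q → (∀ k, (q k).Prime ∧ q k ≠ 2 ∧ q k ≤ (k + 2) ^ B) →
      ∃ E : Set ℝ, dimH E ≤ ENNReal.ofReal ((1 - κ + τ) / (1 - θ)) ∧
        ∀ α : ℝ, 0 < α → α ∉ E → ∀ (r : ℕ) (f : Fin r → ℤ[X]), (∀ i, 1 ≤ (f i).natDegree) →
          ((∏ i, f i).map (Int.castRingHom ℚ)).Separable → ∀ w : Fin s → Fin r → Bool,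
          ∃ i₀ : ℕ, ∀ i : ℕ, i₀ ≤ i → ∀ n : ℤ, |(|(n : ℝ)|) - α * v i| ≤ v i ^ θ →
            ∀ K : ℕ, Real.log |(n : ℝ)| ^ C ≤ K → (K : ℝ) ≤ |(n : ℝ)| ^ κ →
              |(count q f w n K : ℝ) - K / 2 ^ (r * s)| ≤ (K : ℝ) ^ (1 / 2 + δ) := by
  classical
  obtain ⟨κ, C, hκ, hC, H⟩ := Pool.Agent.X35.OR.consec_app s B hs hB δ hδ
  refine ⟨κ, C, hκ, hC, fun v τ θ hv1 hτ hθ hv q hmono hq => ?_⟩
  let Γ : Type := Σ r : ℕ, ({f : Fin r → ℤ[X] // (∀ i, 1 ≤ (f i).natDegree) ∧ ((∏ i, f i).map (Int.castRingHom ℚ)).Separable} ×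
    (Fin s → Fin r → Bool))
  have hcount : Countable Γ := by
    have h0 := Pool.Agent.X35.GM.countable_int_poly
    infer_instance
  have hM : ∀ c : Γ, ∃ M : ℝ, 0 ≤ M ∧ ∀ p : ℕ, p.Prime → p ≠ 2 → ∀ b : Fin c.1 → Bool,
      |(((range p).filter (fun t : ℕ => ∀ i, Pool.Agent.X35.OR.Tp p (b i) ((c.2.1.1 i).eval (t : ℤ)))).card : ℝ) / p - 1 / 2 ^ c.1| ≤ M / √p :=
    fun c => Pool.Agent.X35.OR.patt c.2.1.1 c.2.1.2.2 c.2.1.2.1
  choose M hM0 hM using hM
  obtain ⟨E, hE1, hE2⟩ := H v τ θ hv1 hτ hθ hv Γ (fun _ => q) (fun _ => ⟨hmono, fun k => ⟨(hq k).1, (hq k).2.2⟩⟩)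
    (fun c j p n => if ∀ i, Pool.Agent.X35.OR.Tp p (c.2.2 j i) ((c.2.1.1 i).eval n) then 1 else 0)
    (fun c _ _ => 1 / 2 ^ c.1) (fun _ => 1) M (fun _ => le_rfl) hM0
    (by
      intro c j k m m' h
      have : ∀ i, (((c.2.1.1 i).eval m : ℤ) : ZMod (q k)) = (((c.2.1.1 i).eval m' : ℤ) : ZMod (q k)) := by
        intro i
        rw [← sub_eq_zero, ← Int.cast_sub, ZMod.intCast_zmod_eq_zero_iff_dvd]
        exact (Int.modEq_iff_dvd.1 h.symm).trans ((c.2.1.1 i).sub_dvd_eval_sub m m')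
      have e : (∀ i, Pool.Agent.X35.OR.Tp (q k) (c.2.2 j i) ((c.2.1.1 i).eval m)) ↔
          ∀ i, Pool.Agent.X35.OR.Tp (q k) (c.2.2 j i) ((c.2.1.1 i).eval m') := by
        apply forall_congr'
        intro i
        unfold Pool.Agent.X35.OR.Tp
        rw [this i]
      beta_reduce
      by_cases h' : ∀ i, Pool.Agent.X35.OR.Tp (q k) (c.2.2 j i) ((c.2.1.1 i).eval m)
      · rw [if_pos h', if_pos (e.1 h')]
      · rw [if_neg h', if_neg (fun h'' => h' (e.2 h''))])
    (by
      intro c j k n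
      beta_reduce
      split_ifs <;> simp)
    (by
      intro c j k
      beta_reduce
      rw [abs_of_nonneg (by positivity), div_le_one (by positivity)]
      exact one_le_pow₀ (by norm_num))
    (by
      intro c j k
      have h := hM c (q k) (hq k).1 (hq k).2.1 (c.2.2 j)
      refine le_trans (le_of_eq ?_) h
      congr 2
      unfold Pool.Agent.X35.GV.avg
      congr 1
      rw [card_filter]
      push_cast
      rfl)
  refine ⟨E, hE1, fun α hα hαE r f hf hsep w => ?_⟩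
  obtain ⟨i₁, hi₁⟩ := hE2 α hα hαE ⟨r, ⟨f, hf, hsep⟩, w⟩
  refine ⟨i₁, fun i hi n hn K hK1 hK2 => ?_⟩
  have h1 := hi₁ i hi n hn K hK1 hK2
  refine le_trans (le_of_eq ?_) h1
  congr 2
  · unfold count
    rw [card_filter]
    push_cast
    apply sum_congr rfl
    intro k _
    by_cases h : ∀ (j : Fin s) (i : Fin r), if w j i = true then Splits (q (k + j)) ((f i).eval n) else Inert (q (k + j)) ((f i).eval n)
    · rw [if_pos h, prod_eq_one]
      intro j _
      exact if_pos (h j)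
    · rw [if_neg h]
      push Not at h
      obtain ⟨j, i, hj⟩ := h
      rw [prod_eq_zero (mem_univ j)]
      apply if_neg
      intro h'
      exact hj (h' i)
  · simp only [prod_const, card_univ, Fintype.card_fin, sum_const, card_range, nsmul_eq_mul]
    rw [pow_mul]
    ring

end Pool.Agent.Results.MP_aaa0df_nt.PatternsOfManyFields
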