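import Pool.Agent.X35.HV.Sp
import Pool.Agent.X283.DA.Dyadic

set_option autoImplicit false

/-!
# Small split primes: discriminants near real powers and discriminants as denominators

Let `Q` be a set of primes with at least `κ y ^ ρ / log y` elements up to `y`, `ρ > 1 / 2` (for example all
primes, `ρ = 1`), `s = 3 / 2 - ρ < 1`, and `η > 0`. `HalfSplit Q η t`: if `-t` is a fundamental
discriminant, then half of the primes of `Q` below the threshold `(log t) ^ 2 (log log t) ^ 2` of the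
question split in the field of discriminant `-t`, up to the relative error `η`.

* For almost all `t > 1` ALL integers in the intervals of radius `t ^ (θ κ_n)` around `t ^ κ_n` have this
  property, `n ≥ n₀`, if `s + θ < 1` and `κ_n / log n → ∞`, for instance around `t ^ n`.
* For almost all `t > 1 / (1 - s - θ)`: the same for the intervals of radius `n ^ (θ t)` around `n ^ t`.
* For almost all `x ∈ ℝ ^ d` ALL large `q` such that `q x_i` is within `q ^ (-θ_i)` of `y_i` modulo `1` for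
  all `i` have this property, if `θ_1 + ... + θ_d > s`; for `y = 0` and `θ_i = 1 / d` there are infinitely
  many such `q` for every `x` (Dirichlet).
* The dimensions of the exceptional sets of `t` and `x`.
-/

namespace Pool.Agent.Results.MP_aaa0df_nt.PowersAndDenominators

open Pool.Agent.X283.DA

/-- the fundamental discriminants `d < 0`, that is, the discriminants of the imaginary quadratic
fields (as in the frozen statement) -/
def NegFund (d : ℤ) : Prop := d < 0 ∧ ((d % 4 = 1 ∧ Squarefree d) ∨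
  ∃ m : ℤ, d = 4 * m ∧ (m % 4 = 2 ∨ m % 4 = 3) ∧ Squarefree m)

/-- the primes `p ≤ y` in the set `Q` -/
def primesIn (Q : Set ℕ) (y : ℕ) : Set ℕ := {p | p.Prime ∧ p ≤ y ∧ p ∈ Q}

/-- at least `κ y ^ ρ / log y` primes `p ≤ y` lie in `Q`, for all large `y`, for some `κ > 0` -/
def Thick (Q : Set ℕ) (ρ : ℝ) : Prop := ∃ κ : ℝ, 0 < κ ∧ ∃ y₀ : ℕ, ∀ y : ℕ, y₀ ≤ y →
  κ * (y : ℝ) ^ ρ ≤ (primesIn Q y).ncard * Real.log y

/-- the threshold `(log |d|) ^ 2 (log log |d|) ^ 2` of the question -/
noncomputable def thr (d : ℤ) : ℝ :=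
  Real.log |(d : ℝ)| ^ 2 * Real.log (Real.log |(d : ℝ)|) ^ 2

/-- the number of the primes in `Q` below the threshold which split in the field of discriminant `d` (`p` does not divide
`d` and `d` is a square modulo `4 p`, as in the frozen statement); `N(d)` of the question if `Q` contains all primes -/
noncomputable def NQ (Q : Set ℕ) (d : ℤ) : ℕ := Set.ncard {p : ℕ | p.Prime ∧ p ∈ Q ∧
  (p : ℝ) < thr d ∧ ¬ (p : ℤ) ∣ d ∧ ∃ x : ℤ, (4 * (p : ℤ)) ∣ x ^ 2 - d}

/-- the number of the primes in `Q` below the threshold -/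
noncomputable def MQ (Q : Set ℕ) (d : ℤ) : ℕ := Set.ncard {p : ℕ | p.Prime ∧ p ∈ Q ∧
  (p : ℝ) < thr d}

/-- `-t` is not a fundamental discriminant, or half of the primes of `Q` below the threshold split in the
field of discriminant `-t`, up to the relative error `η` -/
def HalfSplit (Q : Set ℕ) (η : ℝ) (t : ℕ) : Prop :=
  NegFund (-(t : ℤ)) → |2 * (NQ Q (-(t : ℤ)) : ℝ) - MQ Q (-(t : ℤ))| ≤ η * MQ Q (-(t : ℤ))

theorem sparse (ρ η : ℝ) (Q : Set ℕ) (hρ : 1 / 2 < ρ) (hρ1 : ρ ≤ 1) (hη : 0 < η) (hQ : Thick Q ρ) :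
    Sparse {t : ℕ | ¬ HalfSplit Q η t} (3 / 2 - ρ) := by
  classical
  refine sparse_of_nat (by linarith) fun ε hε => ?_
  obtain ⟨K, hK, h⟩ := Pool.Agent.Y549.SP.Fin2.cnt3 Pool.Agent.X35.HV.cnt2 ρ η ε Q hρ hρ1 hη hε hQ
  refine ⟨K, fun X hX => ?_⟩
  have hfin : {t : ℕ | t ∈ {t : ℕ | ¬ HalfSplit Q η t} ∧ t ≤ X}.Finite :=
    (Set.finite_Iic X).subset fun t ht => ht.2
  rw [Set.ncard_eq_toFinset_card _ hfin]
  refine h X hfin.toFinset hX fun t ht => ?_
  rw [Set.Finite.mem_toFinset] at ht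
  obtain ⟨h1, h2⟩ := ht
  have h3 : ¬ HalfSplit Q η t := h1
  unfold HalfSplit at h3
  push Not at h3
  obtain ⟨h4, h5⟩ := h3
  refine ⟨?_, h2, h4, not_le.2 h5⟩
  have h6 : (-(t : ℤ)) < 0 := h4.1
  omega

/-- **Theorem.** All the primes are a set `Q` as below with `ρ = 1`. Let `1 / 2 < ρ ≤ 1`, let at least
`κ y ^ ρ / log y` primes `p ≤ y` lie in `Q` for all large `y`, and `η > 0`. The property `HalfSplit Q η` of
natural numbers holds near the real powers `t ^ κ_n` and `n ^ t` (in the sense of `GoodAtPowers` and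
`GoodAtExponents`) and for the denominators of good simultaneous (inhomogeneous) rational approximations
(`GoodAtDenominators`, `GoodAtApproximations`), with the exponent `s = 3 / 2 - ρ`. -/
theorem result :
    Thick Set.univ 1 ∧
    ∀ (ρ η : ℝ) (Q : Set ℕ), 1 / 2 < ρ → ρ ≤ 1 → 0 < η → Thick Q ρ →
      GoodAtPowers (HalfSplit Q η) (3 / 2 - ρ) ∧ GoodAtExponents (HalfSplit Q η) (3 / 2 - ρ) ∧
      GoodAtDenominators (HalfSplit Q η) (3 / 2 - ρ) ∧
      GoodAtApproximations (HalfSplit Q η) (3 / 2 - ρ) :=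
  ⟨Pool.Agent.Y549.SP.Fin2.thick_univ, fun ρ η Q hρ hρ1 hη hQ =>
    pack (HalfSplit Q η) (by linarith) (sparse ρ η Q hρ hρ1 hη hQ)⟩

end Pool.Agent.Results.MP_aaa0df_nt.PowersAndDenominators
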