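import Pool.Agent.X35.HV.Sp

set_option autoImplicit false

/-!
# Small split primes for ALL discriminants close to `α v_n`, outside a set of `α` of small dimension

Let `v_n ≥ 1` be a sequence with `∑ v_n ^ (-t) < ∞` for all `t > τ` (for example `v_n = 2 ^ n` or `n!`, `τ = 0`; `v_n = n ^ k`,
`τ = 1 / k`), let `θ < 1`, and let `Q_1, Q_2, …` be sets of primes with at least `κ_i y ^ ρ / log y` elements up to `y`, `ρ > 1 / 2`
(for example all the primes, `ρ = 1`).

There is a set `E` of Hausdorff dimension at most `(3 / 2 - ρ + τ) / (1 - θ)` such that for every positive `α ∉ E` the following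
holds for ALL fundamental discriminants `d < 0` with `||d| - α v_n| ≤ v_n ^ θ`, as `n → ∞`: half of the primes of `Q_i` below the
threshold `(log |d|) ^ 2 (log log |d|) ^ 2` of the question split in the field of discriminant `d` (for every `i`).  In particular
`N(d) → ∞` along these discriminants.

For all the primes and `v_n = 2 ^ n`: with the exception of a set of `α` of dimension at most `1 / (2 (1 - θ)) < 1`, for every
`θ < 1 / 2`, there is no exceptional discriminant at all in the intervals of length `2 (2 ^ n) ^ θ` around `-α 2 ^ n`, `n ≥ n₀(α)`.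

Method (helper549): the bound `O(X ^ (3 / 2 - ρ + ε))` for the number of the exceptional discriminants (Heath-Brown's large sieve
on blocks of primes, the theorem of the file `ThinSetsOfPrimes`), and the covering lemma `Pool.Agent.Y854.GM.win_nat`.
-/

namespace Pool.Agent.Results.MP_aaa0df_nt.SequencesOfDiscriminants

/-- the fundamental discriminants `d < 0`, that is, the discriminants of the imaginary quadratic
fields (as in the frozen statement) -/
def NegFund (d : ℤ) : Prop := d < 0 ∧ ((d % 4 = 1 ∧ Squarefree d) ∨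
  ∃ m : ℤ, d = 4 * m ∧ (m % 4 = 2 ∨ m % 4 = 3) ∧ Squarefree m)

/-- the primes `p ≤ y` in the set `Q` -/
def primesIn (Q : Set ℕ) (y : ℕ) : Set ℕ := {p | p.Prime ∧ p ≤ y ∧ p ∈ Q}

/-- at least `κ y ^ ρ / log y` primes `p ≤ y` lie in `Q`, for all large `y`, for some `κ > 0` -/
def Thick (Q : Set ℕ) (ρ : ℝ) : Prop := ∃ κ : ℝ, 0 < κ ∧ ∃ y₀ : ℕ, ∀ y : ℕ, y₀ ≤ y →
  κ * (y : ℝ) ^ ρ ≤ (primesIn Q y).ncard * Real.log y

/-- the threshold `(log |d|) ^ 2 (log log |d|) ^ 2` of the question -/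
noncomputable def thr (d : ℤ) : ℝ :=
  Real.log |(d : ℝ)| ^ 2 * Real.log (Real.log |(d : ℝ)|) ^ 2

/-- the number of the primes in `Q` below the threshold which split in the field of discriminant `d` (`p` does not divide
`d` and `d` is a square modulo `4 p`, as in the frozen statement); `N(d)` of the question if `Q` contains all primes -/
noncomputable def NQ (Q : Set ℕ) (d : ℤ) : ℕ := Set.ncard {p : ℕ | p.Prime ∧ p ∈ Q ∧
  (p : ℝ) < thr d ∧ ¬ (p : ℤ) ∣ d ∧ ∃ x : ℤ, (4 * (p : ℤ)) ∣ x ^ 2 - d}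

/-- the number of the primes in `Q` below the threshold -/
noncomputable def MQ (Q : Set ℕ) (d : ℤ) : ℕ := Set.ncard {p : ℕ | p.Prime ∧ p ∈ Q ∧
  (p : ℝ) < thr d}

theorem result (ρ τ θ : ℝ) (Q : ℕ → Set ℕ) (v : ℕ → ℝ) (hρ : 1 / 2 < ρ) (hρ1 : ρ ≤ 1)
    (hτ : 0 ≤ τ) (hθ : θ < 1) (hQ : ∀ i, Thick (Q i) ρ) (hv1 : ∀ n, 1 ≤ v n)
    (hv : ∀ t : ℝ, τ < t → Summable (fun n => v n ^ (-t))) :
    Thick Set.univ 1 ∧
    ∃ E : Set ℝ, dimH E ≤ ENNReal.ofReal ((3 / 2 - ρ + τ) / (1 - θ)) ∧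
      ∀ α : ℝ, 0 < α → α ∉ E → ∀ (i : ℕ) (η : ℝ), 0 < η → ∃ n₀ : ℕ, ∀ n : ℕ, n₀ ≤ n →
        ∀ d : ℤ, NegFund d → |(|(d : ℝ)|) - α * v n| ≤ v n ^ θ →
          |2 * (NQ (Q i) d : ℝ) - MQ (Q i) d| ≤ η * MQ (Q i) d :=
  ⟨Pool.Agent.Y549.SP.Fin2.thick_univ,
    Pool.Agent.Y549.SP.Fin2.part4 Pool.Agent.X35.HV.cnt2 ρ τ θ Q v hρ hρ1 hτ hθ hQ hv1 hv⟩

end Pool.Agent.Results.MP_aaa0df_nt.SequencesOfDiscriminants
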