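import Pool.Agent.X35.HV.Sp

set_option autoImplicit false

/-!
# Small split primes in every thin set of primes, for all but few discriminants

Let `Q` be ANY set of primes with at least `κ y ^ ρ / log y` elements up to `y`, for all large `y` (for example a set of
density zero like the primes `⌊n ^ c⌋` or the primes with restricted digits; nothing is assumed about the distribution of `Q`).

(1) Let `A > 1 / ρ`, `η, ε > 0`.  There is `c > 0` such that for all but `K X ^ (1 - ρ + 1 / A + ε)` of the fundamental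
discriminants `-X ≤ d < 0` half of the primes `p ≤ y` in `Q` split in the field of discriminant `d`, up to the relative error `η`, for
ALL `y` with `(log |d|) ^ A ≤ y ≤ |d| ^ c`.

(2) Let `ρ > 1 / 2`.  For all but `K X ^ (3 / 2 - ρ + ε)` of them half of the primes in `Q` below the threshold
`(log |d|) ^ 2 (log log |d|) ^ 2` of the question split, up to the relative error `η`.

Method (helper549): Heath-Brown's large sieve for real characters, applied to the products of the sums of the symbols over many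
disjoint blocks of primes of `Q`, which have nearly the same number of elements; a large sum over `Q` is large on many blocks.
-/

namespace Pool.Agent.Results.MP_aaa0df_nt.ThinSetsOfPrimes

/-- the fundamental discriminants `d < 0`, that is, the discriminants of the imaginary quadratic
fields (as in the frozen statement) -/
def NegFund (d : ℤ) : Prop := d < 0 ∧ ((d % 4 = 1 ∧ Squarefree d) ∨
  ∃ m : ℤ, d = 4 * m ∧ (m % 4 = 2 ∨ m % 4 = 3) ∧ Squarefree m)

/-- the primes `p ≤ y` in the set `Q` -/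
def primesIn (Q : Set ℕ) (y : ℕ) : Set ℕ := {p | p.Prime ∧ p ≤ y ∧ p ∈ Q}

/-- the primes `p ≤ y` in the set `Q` which split in the field of discriminant `d` (`p` does not divide `d` and `d` is a
square modulo `4 p`, as in the frozen statement) -/
def splitIn (Q : Set ℕ) (d : ℤ) (y : ℕ) : Set ℕ :=
  {p | p.Prime ∧ p ≤ y ∧ p ∈ Q ∧ ¬ (p : ℤ) ∣ d ∧ ∃ x : ℤ, (4 * (p : ℤ)) ∣ x ^ 2 - d}

/-- at least `κ y ^ ρ / log y` primes `p ≤ y` lie in `Q`, for all large `y`, for some `κ > 0` -/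
def Thick (Q : Set ℕ) (ρ : ℝ) : Prop := ∃ κ : ℝ, 0 < κ ∧ ∃ y₀ : ℕ, ∀ y : ℕ, y₀ ≤ y →
  κ * (y : ℝ) ^ ρ ≤ (primesIn Q y).ncard * Real.log y

/-- For all `y` between `(log |d|) ^ A` and `|d| ^ c` half of the primes `p ≤ y` in `Q` split in
the field of discriminant `d`, up to the relative error `η`. -/
def Half (Q : Set ℕ) (A c η : ℝ) (d : ℤ) : Prop := ∀ y : ℕ, Real.log |(d : ℝ)| ^ A ≤ y →
  (y : ℝ) ≤ |(d : ℝ)| ^ c →
    |2 * ((splitIn Q d y).ncard : ℝ) - (primesIn Q y).ncard| ≤ η * (primesIn Q y).ncard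

/-- the threshold `(log |d|) ^ 2 (log log |d|) ^ 2` of the question -/
noncomputable def thr (d : ℤ) : ℝ :=
  Real.log |(d : ℝ)| ^ 2 * Real.log (Real.log |(d : ℝ)|) ^ 2

/-- the number of the primes in `Q` below the threshold which split in the field of discriminant `d`; `N(d)` of the
question if `Q` contains all primes -/
noncomputable def NQ (Q : Set ℕ) (d : ℤ) : ℕ := Set.ncard {p : ℕ | p.Prime ∧ p ∈ Q ∧
  (p : ℝ) < thr d ∧ ¬ (p : ℤ) ∣ d ∧ ∃ x : ℤ, (4 * (p : ℤ)) ∣ x ^ 2 - d}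

/-- the number of the primes in `Q` below the threshold -/
noncomputable def MQ (Q : Set ℕ) (d : ℤ) : ℕ := Set.ncard {p : ℕ | p.Prime ∧ p ∈ Q ∧
  (p : ℝ) < thr d}

theorem result (Q : Set ℕ) (ρ η ε : ℝ) (hρ : 0 < ρ) (hρ1 : ρ ≤ 1) (hη : 0 < η) (hε : 0 < ε)
    (hQ : Thick Q ρ) :
    (∀ A : ℝ, 1 / ρ < A → ∃ c K : ℝ, 0 < c ∧ 0 < K ∧ ∀ X : ℕ, 1 ≤ X →
      ({d : ℤ | NegFund d ∧ |d| ≤ X ∧ ¬ Half Q A c η d}.ncard : ℝ) ≤
        K * (X : ℝ) ^ (1 - ρ + 1 / A + ε)) ∧
    (1 / 2 < ρ → ∃ K : ℝ, ∀ X : ℕ, 1 ≤ X →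
      ({d : ℤ | NegFund d ∧ |d| ≤ X ∧
        ¬ |2 * (NQ Q d : ℝ) - MQ Q d| ≤ η * MQ Q d}.ncard : ℝ) ≤ K * (X : ℝ) ^ (3 / 2 - ρ + ε)) :=
  ⟨fun A hA => Pool.Agent.Y549.SP.Fin2.part1 Pool.Agent.X35.HV.cnt2 A ρ η ε Q hρ hρ1 ((div_lt_iff₀ hρ).1 hA) hη hε hQ,
    fun h2 => Pool.Agent.Y549.SP.Fin2.part3 Pool.Agent.X35.HV.cnt2 ρ η ε Q h2 hρ1 hη hε hQ⟩

end Pool.Agent.Results.MP_aaa0df_nt.ThinSetsOfPrimes
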